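import Pool.Agent.H180Z.QP.XQP

set_option autoImplicit false

namespace Pool.Agent.H180Z.QP

open Pointwise

variable {S : Type} [Group S]

/-- the element with lamps `f` at the nonnegative positions -/
def EE (f : ℤ → S) : GG S := ⟨fun i => if 0 ≤ i then f i else 1, 0, ⟨0, fun i j hi hj => by
  simp only [if_neg (not_le.2 hi), if_neg (not_le.2 hj)]⟩⟩

@[simp] lemma EE_n (f : ℤ → S) : (EE f).n = 0 := rfl
lemma EE_f (f : ℤ → S) (i : ℤ) : (EE f).f i = if 0 ≤ i then f i else 1 := rfl

lemma EE_mul (f g : ℤ → S) : EE (f * g) = EE f * EE g := by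
  ext i
  · simp only [EE_f, mul_f, EE_n, sub_zero, Pi.mul_apply]; split_ifs <;> simp
  · simp
lemma EE_inv (f : ℤ → S) : EE f⁻¹ = (EE f)⁻¹ := by
  ext i
  · simp only [EE_f, inv_f, EE_n, add_zero, Pi.inv_apply]; split_ifs <;> simp
  · simp
lemma EE_one : EE (1 : ℤ → S) = 1 := by
  ext i
  · simp [EE_f]
  · simp

/-- the constant lamp configuration -/
def DD (d : S) : GG S := ⟨fun _ => d, 0, ⟨0, fun _ _ _ _ => rfl⟩⟩

@[simp] lemma DD_n (d : S) : (DD d).n = 0 := rfl
@[simp] lemma DD_f (d : S) (i : ℤ) : (DD d).f i = d := rfl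
lemma cj_DD (i : ℤ) (d : S) : cj i (DD d) = DD d := by ext <;> simp
lemma DD_mem (d : S) : DD d ∈ QQ S := ⟨rfl, fun _ _ _ _ => rfl⟩

open Classical in
lemma prod_bd {l : GG S → ℝ} (hl : IsLen l) {κ : Type} [Fintype κ] (B : κ → Set (ℤ → S))
    (hB : ∀ k, ∃ C : ℝ, ∀ g ∈ B k, l (EE g) ≤ C) :
    ∃ C : ℝ, ∀ (f : ℤ → S) (col : ℤ → κ),
      (∀ k, (fun i => if col i = k then f i else 1) ∈ B k) → l (EE f) ≤ C := by
  have key : ∀ V : Finset κ, ∃ C : ℝ, ∀ (f : ℤ → S) (col : ℤ → κ),
      (∀ k, (fun i => if col i = k then f i else 1) ∈ B k) →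
      l (EE (fun i => if col i ∈ V then f i else 1)) ≤ C := by
    intro V
    induction V using Finset.induction_on with
    | empty =>
      refine ⟨0, fun f col _ => ?_⟩
      have : (fun i => if col i ∈ (∅ : Finset κ) then f i else 1) = 1 := by
        funext i; simp
      rw [this, EE_one, hl.one]
    | insert k V hk ih =>
      obtain ⟨C, hC⟩ := ih
      obtain ⟨C', hC'⟩ := hB k
      refine ⟨C' + C, fun f col h => ?_⟩
      have : (fun i => if col i ∈ insert k V then f i else 1) =
          (fun i => if col i = k then f i else 1) * (fun i => if col i ∈ V then f i else 1) := by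
        funext i
        simp only [Pi.mul_apply, Finset.mem_insert]
        by_cases h1 : col i = k
        · simp [h1, hk]
        · simp [h1]
      rw [this, EE_mul]
      have h1 := hC f col h
      have h2 := hC' _ (h k)
      have h3 := hl.mul (EE (fun i => if col i = k then f i else 1))
        (EE (fun i => if col i ∈ V then f i else 1))
      linarith
  obtain ⟨C, hC⟩ := key Finset.univ
  refine ⟨C, fun f col h => ?_⟩
  have := hC f col h
  simpa using this

lemma val_two (j : ℕ) (k : ℤ) : padicValInt 2 (2 ^ j * (2 * k + 1)) = j := by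
  have h1 : (2 * k + 1).natAbs ≠ 0 := by omega
  have h2 : ¬ 2 ∣ (2 * k + 1).natAbs := by omega
  unfold padicValInt
  rw [Int.natAbs_mul, Int.natAbs_pow]
  change padicValNat 2 (2 ^ j * (2 * k + 1).natAbs) = j
  rw [padicValNat.mul (by positivity) h1, padicValNat.prime_pow,
    padicValNat.eq_zero_of_not_dvd h2, add_zero]

lemma exists_full (l : GG S → ℝ) : ∃ j : ℕ, ∀ φ : ℤ → S, ∃ g : ℤ → S, l (EE g) ≤ j ∧
    ∀ i, padicValInt 2 i = j → g i = φ i := by
  by_contra hcon
  push Not at hcon
  choose φ hφ using hcon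
  obtain ⟨j, hj⟩ := exists_nat_ge (l (EE (fun i => φ (padicValInt 2 i) i)))
  obtain ⟨i, hi, h⟩ := hφ j _ hj
  exact h (by rw [hi])

open Classical in
lemma bdd_val [Finite S] (hperf : commutator S = ⊤) {l : GG S → ℝ} (hl : IsLen l) :
    ∃ (j : ℕ) (C : ℝ), ∀ f : ℤ → S, (∀ i, padicValInt 2 i ≠ j → f i = 1) → l (EE f) ≤ C := by
  obtain ⟨j, hj⟩ := exists_full l
  let B : S → Set (ℤ → S) := fun s => {g | ∀ i, g i = 1 ∨ (padicValInt 2 i = j ∧ g i = s)}
  let U : Subgroup S :=
    { carrier := {s | ∃ C : ℝ, ∀ g ∈ B s, l (EE g) ≤ C}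
      one_mem' := ⟨0, fun g hg => by
        have : g = 1 := funext fun i => by rcases hg i with h | h; exacts [h, h.2]
        rw [this, EE_one, hl.one]⟩
      mul_mem' := by
        rintro a b ⟨C, hC⟩ ⟨C', hC'⟩
        refine ⟨C + C', fun g hg => ?_⟩
        have e : g = (fun i => if g i = 1 then 1 else a) * (fun i => if g i = 1 then 1 else b) := by
          funext i
          simp only [Pi.mul_apply]
          by_cases h : g i = 1
          · simp [h]
          · rw [if_neg h, if_neg h]; exact ((hg i).resolve_left h).2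
        have hm : ∀ c : S, (fun i => if g i = 1 then 1 else c) ∈ B c := fun c i => by
          by_cases h : g i = 1
          · left; simp [h]
          · right; exact ⟨((hg i).resolve_left h).1, by simp [h]⟩
        have h1 := hC _ (hm a)
        have h2 := hC' _ (hm b)
        rw [e, EE_mul]
        exact (hl.mul _ _).trans (add_le_add h1 h2)
      inv_mem' := by
        rintro a ⟨C, hC⟩
        refine ⟨C, fun g hg => ?_⟩
        have := hC g⁻¹ (fun i => by
          rcases hg i with h | h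
          · left; simp [h]
          · right; exact ⟨h.1, by simp [h.2]⟩)
        rwa [EE_inv, hl.inv] at this }
  have hU : ∀ s, s ∈ U := by
    have : commutator S ≤ U := by
      rw [commutator_eq_closure, Subgroup.closure_le]
      rintro _ ⟨a, u, rfl⟩
      refine ⟨2 * j + 2 * l (EE (fun i => if padicValInt 2 i = j then u else 1)), fun g hg => ?_⟩
      obtain ⟨a', h1, h2⟩ := hj (fun i => if g i = 1 then 1 else a)
      set u' : ℤ → S := fun i => if padicValInt 2 i = j then u else 1 with hu'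
      have e : g = a' * u' * a'⁻¹ * u'⁻¹ := by
        funext i
        simp only [Pi.mul_apply, Pi.inv_apply, hu']
        by_cases hv : padicValInt 2 i = j
        · rw [if_pos hv, h2 i hv]
          by_cases h : g i = 1
          · simp [h]
          · rw [if_neg h, ((hg i).resolve_left h).2, commutatorElement_def]
        · rw [if_neg hv]
          rcases hg i with h | h
          · simp [h]
          · exact absurd h.1 hv
      rw [e, EE_mul, EE_mul, EE_mul, EE_inv, EE_inv]
      have h3 := hl.mul (EE a' * EE u' * (EE a')⁻¹) (EE u')⁻¹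
      have h4 := hl.mul3 (EE a') (EE u') (EE a')⁻¹
      rw [hl.inv] at h3 h4
      linarith
    intro s
    exact this (hperf ▸ Subgroup.mem_top s)
  have := Fintype.ofFinite S
  obtain ⟨C, hC⟩ := prod_bd hl B hU
  refine ⟨j, C, fun f hf => hC f f (fun k i => ?_)⟩
  by_cases h : f i = k
  · by_cases hv : padicValInt 2 i = j
    · right; exact ⟨hv, by simp [h]⟩
    · left; simp [hf i hv]
  · left; simp [h]

open Classical in
lemma bdd_EE [Finite S] (hperf : commutator S = ⊤) {l : GG S → ℝ} (hl : IsLen l) :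
    ∃ C : ℝ, ∀ f : ℤ → S, l (EE f) ≤ C := by
  obtain ⟨j, C, hC⟩ := bdd_val hperf hl
  have hP : (0 : ℤ) < 2 ^ (j + 1) := by positivity
  let B : Fin (2 ^ (j + 1)) → Set (ℤ → S) := fun r => {g | ∀ i : ℤ, i % 2 ^ (j + 1) ≠ ((r : ℕ) : ℤ) → g i = 1}
  have hB : ∀ r, ∃ C : ℝ, ∀ g ∈ B r, l (EE g) ≤ C := by
    intro r
    set s : ℤ := 2 ^ j + 2 ^ (j + 1) - (r : ℕ) with hs
    have hr : ((r : ℕ) : ℤ) < 2 ^ (j + 1) := by exact_mod_cast r.2
    have hs0 : 0 ≤ s := by
      have : (0 : ℤ) < 2 ^ j := by positivity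
      omega
    refine ⟨l (sh (-s)) + C + l (sh (-s)), fun g hg => ?_⟩
    have e : EE g = cj (-s) (EE (fun i => if 0 ≤ i - s then g (i - s) else 1)) := by
      ext i
      · simp only [EE_f, cj_f, sub_neg_eq_add, add_sub_cancel_right]
        by_cases h : 0 ≤ i
        · rw [if_pos h, if_pos (by omega)]
        · rw [if_neg h]; simp
      · simp
    have h1 := hC (fun i => if 0 ≤ i - s then g (i - s) else 1) (fun i hi => by
      split_ifs with h
      · apply hg
        intro h2
        apply hi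
        have h3 := Int.mul_ediv_add_emod (i - s) (2 ^ (j + 1))
        have e2 : i = 2 ^ j * (2 * ((i - s) / 2 ^ (j + 1) + 1) + 1) := by
          rw [h2, hs] at h3
          rw [hs]
          have : (2 : ℤ) ^ (j + 1) = 2 ^ j * 2 := pow_succ _ _
          linear_combination (-1 : ℤ) * h3 + ((i - (2 ^ j + 2 ^ (j + 1) - (r : ℕ))) / 2 ^ (j + 1) + 1) * this
        rw [e2, val_two]
      · rfl)
    rw [e]
    unfold cj
    have h2 := hl.mul3 (sh (-s)) (EE (fun i => if 0 ≤ i - s then g (i - s) else 1)) (sh (-s))⁻¹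
    rw [hl.inv] at h2
    linarith
  obtain ⟨C', hC'⟩ := prod_bd hl B hB
  have hlt : ∀ i : ℤ, (i % 2 ^ (j + 1)).toNat < 2 ^ (j + 1) := fun i => by
    have h1 := Int.emod_lt_of_pos i hP
    have h2 := Int.emod_nonneg i hP.ne'
    have h3 : (((i % 2 ^ (j + 1)).toNat : ℕ) : ℤ) < ((2 ^ (j + 1) : ℕ) : ℤ) := by
      rw [Int.toNat_of_nonneg h2]; exact_mod_cast h1
    exact_mod_cast h3
  refine ⟨C', fun f => hC' f (fun i : ℤ => ⟨(i % 2 ^ (j + 1)).toNat, hlt i⟩) (fun k i hi => ?_)⟩
  beta_reduce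
  rw [if_neg]
  intro h
  apply hi
  have h2 : (i % 2 ^ (j + 1)).toNat = (k : ℕ) := congrArg Fin.val h
  rw [← h2]
  exact (Int.toNat_of_nonneg (Int.emod_nonneg i hP.ne')).symm

lemma bdd_QQ [Finite S] (hperf : commutator S = ⊤) {l : GG S → ℝ} (hl : IsLen l) :
    ∃ c : ℝ, ∀ q ∈ QQ S, l q ≤ c := by
  obtain ⟨C, hC⟩ := bdd_EE hperf hl
  obtain ⟨C', hC'⟩ := Finite.bddAbove_range (fun d : S => l (DD d))
  refine ⟨C' + C, fun q hq => ?_⟩
  have e : q = DD (q.f (-1)) * EE (fun i => (q.f (-1))⁻¹ * q.f i) := by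
    ext i
    · simp only [mul_f, DD_f, DD_n, sub_zero, EE_f]
      split_ifs with h
      · simp
      · rw [mul_one]; exact hq.2 _ _ (by omega) (by omega)
    · simpa using hq.1
  rw [e]
  exact (hl.mul _ _).trans (add_le_add (hC' ⟨_, rfl⟩) (hC _))

end Pool.Agent.H180Z.QP
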