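import Pool.Agent.H180Z.QP.Uniq

set_option autoImplicit false
open Pointwise

namespace Pool.Agent.H180Z.QP

theorem frozen_form :
  ∃ (G : Type) (_ : Group G),
    ∀ (len : Set G → G → ℕ),
      (∀ (S : Set G) (g : G), len S g = sInf {n : ℕ | g ∈ (S ∪ S⁻¹) ^ n}) →
    ∀ (gp : Set G → G → G → ℝ),
      (∀ (S : Set G) (a b : G),
        gp S a b = ((len S a : ℝ) + (len S b : ℝ) - (len S (a⁻¹ * b) : ℝ)) / 2) →
    ∀ (lox : Set G → G → Prop),
      (∀ (S : Set G) (g : G),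
        lox S g ↔ ∃ c : ℝ, 0 < c ∧ ∀ n : ℕ, c * (n : ℝ) ≤ (len S (g ^ n) : ℝ)) →
    ∀ (sameEnd : Set G → G → G → Prop),
      (∀ (S : Set G) (a b : G),
        sameEnd S a b ↔ ∀ K : ℝ, ∃ N : ℕ, ∀ n m : ℕ, N ≤ n → N ≤ m →
          K ≤ gp S (a ^ n) (b ^ m)) →
    ∀ (QP : Set G → Prop),
      (∀ S : Set G, QP S ↔
        (Subgroup.closure S = ⊤ ∧
         (∃ δ : ℝ, ∀ x y z : G, min (gp S x y) (gp S y z) - δ ≤ gp S x z) ∧
         (∃ g h : G, lox S g ∧ lox S h ∧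
            ¬ ((sameEnd S g h ∧ sameEnd S g⁻¹ h⁻¹) ∨
               (sameEnd S g h⁻¹ ∧ sameEnd S g⁻¹ h))) ∧
         (∀ g h : G, lox S g → lox S h →
            (sameEnd S g h ∨ sameEnd S g h⁻¹ ∨ sameEnd S g⁻¹ h ∨ sameEnd S g⁻¹ h⁻¹)))) →
    ∃ X : Set G, QP X ∧
      ∀ Y : Set G, QP Y →
        (∃ C : ℕ, ∀ y ∈ Y, len X y ≤ C) ∧ (∃ C : ℕ, ∀ x ∈ X, len Y x ≤ C) := by
  have hsimple : IsSimpleGroup (alternatingGroup (Fin 5)) :=
    alternatingGroup.isSimpleGroup (by simp)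
  have hperf : commutator (alternatingGroup (Fin 5)) = ⊤ :=
    commutator_alternatingGroup_eq_top (by simp)
  refine ⟨GG (alternatingGroup (Fin 5)), inferInstance, ?_⟩
  intro len hlen gp' hgp lox hlox sameEnd hsame QP hQP
  obtain rfl : len = wl := funext fun S => funext fun g => hlen S g
  obtain rfl : gp' = fun S => gp (fun g => (wl S g : ℝ)) :=
    funext fun S => funext fun a => funext fun b => hgp S a b
  obtain rfl : lox = fun S => Lox (fun g => (wl S g : ℝ)) :=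
    funext fun S => funext fun g => propext (hlox S g)
  obtain rfl : sameEnd = fun S => SameEnd (fun g => (wl S g : ℝ)) :=
    funext fun S => funext fun a => funext fun b => propext (hsame S a b)
  obtain ⟨s, hs⟩ := exists_ne (1 : alternatingGroup (Fin 5))
  refine ⟨XX _, (hQP _).2 ⟨closure_XX, ⟨2, hyp_X⟩, indep_X hs, share_X⟩, fun Y hY => ?_⟩
  obtain ⟨h1, ⟨δ, h2⟩, ⟨g, h, h3, h4, h5⟩, -⟩ := (hQP _).1 hY
  have hl := isLen_wl h1
  constructor
  · obtain ⟨M, hM⟩ := unique hperf hl h2 h3 h4 h5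
    exact ⟨M, fun y hy => hM y (by exact_mod_cast wl_mem hy)⟩
  · obtain ⟨c, hc⟩ := bdd_QQ hperf hl
    obtain ⟨N, hN⟩ := exists_nat_ge c
    refine ⟨max N (wl Y (sh 1)), fun x hx => ?_⟩
    rcases hx with hx | hx
    · have : (wl Y x : ℝ) ≤ N := (hc x hx).trans hN
      exact le_max_of_le_left (by exact_mod_cast this)
    · rw [Set.mem_singleton_iff] at hx
      rw [hx]; exact le_max_right _ _

end Pool.Agent.H180Z.QP
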