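import Pool.Agent.H180Z.QP.Len

set_option autoImplicit false

namespace Pool.Agent.H180Z.QP

open Pointwise

variable {S : Type} [Group S]

def Const (f : ℤ → S) (m : ℤ) : Prop := ∀ i j, i < m → j < m → f i = f j

omit [Group S] in
lemma Const.mono {f : ℤ → S} {m m' : ℤ} (h : Const f m) (hm : m' ≤ m) : Const f m' :=
  fun i j hi hj => h i j (by omega) (by omega)

@[ext] structure GG (S : Type) [Group S] where
  f : ℤ → S
  n : ℤ
  h : ∃ m, Const f m

instance : Mul (GG S) := ⟨fun x y => ⟨fun i => x.f i * y.f (i - x.n), x.n + y.n, by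
  obtain ⟨a, ha⟩ := x.h
  obtain ⟨b, hb⟩ := y.h
  refine ⟨min a (b + x.n), fun i j hi hj => ?_⟩
  simp only
  rw [ha i j (by omega) (by omega), hb (i - x.n) (j - x.n) (by omega) (by omega)]⟩⟩

instance : One (GG S) := ⟨⟨fun _ => 1, 0, ⟨0, fun _ _ _ _ => rfl⟩⟩⟩

instance : Inv (GG S) := ⟨fun x => ⟨fun i => (x.f (i + x.n))⁻¹, -x.n, by
  obtain ⟨a, ha⟩ := x.h
  refine ⟨a - x.n, fun i j hi hj => ?_⟩
  simp only
  rw [ha (i + x.n) (j + x.n) (by omega) (by omega)]⟩⟩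

@[simp] lemma mul_f (x y : GG S) (i : ℤ) : (x * y).f i = x.f i * y.f (i - x.n) := rfl
@[simp] lemma mul_n (x y : GG S) : (x * y).n = x.n + y.n := rfl
@[simp] lemma one_f (i : ℤ) : (1 : GG S).f i = 1 := rfl
@[simp] lemma one_n : (1 : GG S).n = 0 := rfl
@[simp] lemma inv_f (x : GG S) (i : ℤ) : (x⁻¹).f i = (x.f (i + x.n))⁻¹ := rfl
@[simp] lemma inv_n (x : GG S) : (x⁻¹).n = -x.n := rfl

instance : Group (GG S) := Group.ofLeftAxioms
  (fun x y z => by
    ext i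
    · simp [mul_assoc, sub_sub]
    · simp [add_assoc])
  (fun x => by ext i <;> simp)
  (fun x => by ext i <;> simp)

/-- the shift by `i` -/
def sh (i : ℤ) : GG S := ⟨fun _ => 1, i, ⟨0, fun _ _ _ _ => rfl⟩⟩

@[simp] lemma sh_f (i j : ℤ) : (sh i : GG S).f j = 1 := rfl
@[simp] lemma sh_n (i : ℤ) : (sh i : GG S).n = i := rfl

lemma sh_add (i j : ℤ) : (sh (i + j) : GG S) = sh i * sh j := by ext <;> simp
lemma sh_neg (i : ℤ) : (sh (-i) : GG S) = (sh i)⁻¹ := by ext <;> simp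
lemma sh_zero : (sh 0 : GG S) = 1 := by ext <;> simp
lemma sh_pow (n : ℕ) : (sh 1 : GG S) ^ n = sh n := by
  induction n with
  | zero => simp [sh_zero]
  | succ n ih => rw [pow_succ, ih, ← sh_add]; push_cast; rfl

@[simp] lemma pow_n (x : GG S) (k : ℕ) : (x ^ k).n = k * x.n := by
  induction k with
  | zero => simp
  | succ k ih => rw [pow_succ, mul_n, ih]; push_cast; ring

lemma pow_const {x : GG S} {a : ℤ} (hn : 0 ≤ x.n) (h : Const x.f a) (k : ℕ) :
    Const (x ^ k).f a := by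
  induction k with
  | zero => intro i j _ _; simp
  | succ k ih =>
    intro i j hi hj
    rw [pow_succ', mul_f, mul_f, h i j hi hj, ih (i - x.n) (j - x.n) (by omega) (by omega)]

/-- conjugation by a shift -/
def cj (i : ℤ) (x : GG S) : GG S := sh i * x * (sh i)⁻¹

@[simp] lemma cj_f (i : ℤ) (x : GG S) (j : ℤ) : (cj i x).f j = x.f (j - i) := by simp [cj]
@[simp] lemma cj_n (i : ℤ) (x : GG S) : (cj i x).n = x.n := by simp [cj]

lemma cj_cj (i j : ℤ) (x : GG S) : cj i (cj j x) = cj (i + j) x := by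
  ext k
  · simp [sub_sub]
  · simp
lemma cj_mul (i : ℤ) (x y : GG S) : cj i (x * y) = cj i x * cj i y := by unfold cj; group
lemma cj_inv (i : ℤ) (x : GG S) : cj i x⁻¹ = (cj i x)⁻¹ := by unfold cj; group
lemma cj_zero (x : GG S) : cj 0 x = x := by ext <;> simp

def QQ (S : Type) [Group S] : Set (GG S) := {g | g.n = 0 ∧ Const g.f 0}

def XX (S : Type) [Group S] : Set (GG S) := QQ S ∪ {sh 1}

lemma decomp (x : GG S) (a : ℤ) (h : Const x.f (-a)) :
    ∃ q ∈ QQ S, x = sh (-a) * q * sh (a + x.n) := by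
  refine ⟨sh a * x * sh (-(a + x.n)), ⟨by simp, fun i j hi hj => ?_⟩, ?_⟩
  · simp only [mul_f, sh_f, one_mul, mul_one, sh_n]
    exact h _ _ (by omega) (by omega)
  · rw [sh_neg, sh_neg]; group

lemma exists_nat_const (x : GG S) : ∃ a : ℕ, Const x.f (-a) := by
  obtain ⟨m, hm⟩ := x.h
  exact ⟨m.natAbs, hm.mono (by omega)⟩

lemma len_sh {l : GG S → ℝ} (hl : IsLen l) (i : ℤ) : l (sh i) = l (sh 1 ^ i.natAbs) := by
  rw [sh_pow]
  rcases Int.natAbs_eq i with h | h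
  · rw [← h]
  · conv_lhs => rw [h, sh_neg, hl.inv]

lemma len_sh_le {l : GG S → ℝ} (hl : IsLen l) (i : ℤ) : l (sh i) ≤ i.natAbs * l (sh 1) := by
  rw [len_sh hl]; exact hl.pow_le _ _

lemma closure_XX : Subgroup.closure (XX S) = ⊤ := by
  rw [eq_top_iff]
  intro x _
  obtain ⟨a, ha⟩ := exists_nat_const x
  obtain ⟨q, hq, e⟩ := decomp x a ha
  have h1 : ∀ i : ℤ, (sh i : GG S) ∈ Subgroup.closure (XX S) := by
    have h2 : ∀ i : ℕ, (sh i : GG S) ∈ Subgroup.closure (XX S) := fun i => by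
      rw [← sh_pow]
      have h0 : (sh 1 : GG S) ∈ XX S := Or.inr rfl
      exact pow_mem (Subgroup.subset_closure h0) _
    intro i
    rcases Int.natAbs_eq i with h | h
    · rw [h]; exact h2 _
    · rw [h, sh_neg]; exact Subgroup.inv_mem _ (h2 _)
  rw [e]
  exact Subgroup.mul_mem _ (Subgroup.mul_mem _ (h1 _) (Subgroup.subset_closure (Or.inl hq))) (h1 _)

def MP (x y : GG S) (m : ℤ) : Prop :=
  m ≤ x.n ∧ m ≤ y.n ∧ Const (fun i => (x.f i)⁻¹ * y.f i) m

lemma exists_mm (x y : GG S) : ∃ m, MP x y m ∧ ∀ z, MP x y z → z ≤ m := by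
  apply Int.exists_greatest_of_bdd ⟨x.n, fun z hz => hz.1⟩
  obtain ⟨a, ha⟩ := x.h
  obtain ⟨b, hb⟩ := y.h
  refine ⟨min (min a b) (min x.n y.n), by omega, by omega, fun i j hi hj => ?_⟩
  simp only
  rw [ha i j (by omega) (by omega), hb i j (by omega) (by omega)]

noncomputable def mm (x y : GG S) : ℤ := (exists_mm x y).choose

lemma mm_spec (x y : GG S) : MP x y (mm x y) := (exists_mm x y).choose_spec.1
lemma le_mm {x y : GG S} {z : ℤ} (h : MP x y z) : z ≤ mm x y := (exists_mm x y).choose_spec.2 z h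

lemma MP.symm {x y : GG S} {m : ℤ} (h : MP x y m) : MP y x m := by
  refine ⟨h.2.1, h.1, fun i j hi hj => ?_⟩
  have := congrArg (·⁻¹) (h.2.2 i j hi hj)
  simpa using this

lemma mm_comm (x y : GG S) : mm x y = mm y x :=
  le_antisymm (le_mm (mm_spec x y).symm) (le_mm (mm_spec y x).symm)

lemma mm_ultra (x y z : GG S) : min (mm x y) (mm y z) ≤ mm x z := by
  apply le_mm
  obtain ⟨h1, -, h3⟩ := mm_spec x y
  obtain ⟨-, h5, h6⟩ := mm_spec y z
  refine ⟨by omega, by omega, fun i j hi hj => ?_⟩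
  have a1 := h3 i j (by omega) (by omega)
  have a2 := h6 i j (by omega) (by omega)
  simp only at a1 a2 ⊢
  calc (x.f i)⁻¹ * z.f i = ((x.f i)⁻¹ * y.f i) * ((y.f i)⁻¹ * z.f i) := by group
    _ = ((x.f j)⁻¹ * y.f j) * ((y.f j)⁻¹ * z.f j) := by rw [a1, a2]
    _ = _ := by group

lemma MP_left (x y : GG S) (m : ℤ) : MP 1 (x⁻¹ * y) (m - x.n) ↔ MP x y m := by
  unfold MP
  simp only [one_n, mul_n, inv_n, one_f, inv_one, mul_f, inv_f, one_mul, sub_neg_eq_add]
  constructor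
  · rintro ⟨h1, h2, h3⟩
    refine ⟨by omega, by omega, fun i j hi hj => ?_⟩
    have := h3 (i - x.n) (j - x.n) (by omega) (by omega)
    simpa using this
  · rintro ⟨h1, h2, h3⟩
    exact ⟨by omega, by omega, fun i j hi hj => h3 _ _ (by omega) (by omega)⟩

lemma mm_left (x y : GG S) : mm 1 (x⁻¹ * y) = mm x y - x.n := by
  apply le_antisymm
  · have h := mm_spec 1 (x⁻¹ * y)
    have : MP x y (mm 1 (x⁻¹ * y) + x.n) := (MP_left x y _).1 (by simpa using h)
    have := le_mm this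
    omega
  · exact le_mm ((MP_left x y _).2 (mm_spec x y))

lemma MP_one {x : GG S} {m : ℤ} : MP 1 x m ↔ m ≤ 0 ∧ m ≤ x.n ∧ Const x.f m := by
  unfold MP; simp

noncomputable def TT (x : GG S) : ℤ := x.n - 2 * mm 1 x

lemma TT_left (x y : GG S) : TT (x⁻¹ * y) = x.n + y.n - 2 * mm x y := by
  unfold TT; rw [mm_left]; simp; ring

lemma TT_mul (x y : GG S) : TT (x * y) ≤ TT x + TT y := by
  have h1 : TT y = x.n + (x * y).n - 2 * mm x (x * y) := by
    rw [← TT_left]; simp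
  have h2 := mm_ultra 1 x (x * y)
  have h3 := (mm_spec 1 x).2.1
  have h4 := (mm_spec x (x * y)).1
  rw [h1]
  unfold TT
  omega

lemma TT_inv (x : GG S) : TT x⁻¹ = TT x := by
  have h1 := TT_left x 1
  rw [mul_one, mm_comm] at h1
  rw [h1]; unfold TT; simp

lemma TT_le_wl (x : GG S) : TT x ≤ wl (XX S) x := by
  apply wl_lower closure_XX TT
  · have : (0 : ℤ) ≤ mm (1 : GG S) 1 := le_mm (MP_one.2 ⟨le_rfl, by simp, fun _ _ _ _ => rfl⟩)
    unfold TT; simp; omega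
  · exact TT_mul
  · intro s hs
    rw [TT_inv, and_self]
    rcases hs with hs | hs
    · have : (0 : ℤ) ≤ mm 1 s := le_mm (MP_one.2 ⟨le_rfl, hs.1.ge, hs.2⟩)
      have h1 := hs.1
      unfold TT; omega
    · rw [Set.mem_singleton_iff] at hs
      subst hs
      have : (0 : ℤ) ≤ mm (1 : GG S) (sh 1) :=
        le_mm (MP_one.2 ⟨le_rfl, by simp, fun _ _ _ _ => rfl⟩)
      unfold TT; simp; omega

lemma wl_sh (i : ℤ) : wl (XX S) (sh i) ≤ i.natAbs := by
  have h1 := len_sh_le (isLen_wl (closure_XX (S := S))) i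
  have h2 : wl (XX S) (sh 1) ≤ 1 := wl_mem (Or.inr rfl)
  have h3 : (wl (XX S) (sh 1) : ℝ) ≤ 1 := by exact_mod_cast h2
  have h4 : (wl (XX S) (sh i) : ℝ) ≤ i.natAbs := h1.trans (by
    have : (0 : ℝ) ≤ i.natAbs := by positivity
    nlinarith)
  exact_mod_cast h4

lemma wl_le_TT (x : GG S) : (wl (XX S) x : ℤ) ≤ TT x + 1 := by
  obtain ⟨h1, h2, h3⟩ := MP_one.1 (mm_spec 1 x)
  obtain ⟨q, hq, e⟩ := decomp x (-mm 1 x) (by simpa using h3)
  have h4 := wl_mul closure_XX (sh (- -mm 1 x) * q) (sh (-mm 1 x + x.n))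
  have h5 := wl_mul closure_XX (sh (- -mm 1 x)) q
  rw [← e] at h4
  have h6 := wl_sh (S := S) (- -mm 1 x)
  have h7 := wl_sh (S := S) (-mm 1 x + x.n)
  have h8 : wl (XX S) q ≤ 1 := wl_mem (Or.inl hq)
  unfold TT
  omega

lemma abs_le_TT (x : GG S) : x.n ≤ TT x ∧ -x.n ≤ TT x := by
  obtain ⟨h1, h2, -⟩ := MP_one.1 (mm_spec 1 x)
  unfold TT
  omega

noncomputable def lX (S : Type) [Group S] : GG S → ℝ := fun g => (wl (XX S) g : ℝ)

lemma gp_bounds (x y : GG S) :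
    ((mm x y - mm 1 x - mm 1 y : ℤ) : ℝ) - 1 ≤ gp (lX S) x y ∧
      gp (lX S) x y ≤ ((mm x y - mm 1 x - mm 1 y : ℤ) : ℝ) + 1 := by
  have h1 := TT_le_wl x
  have h2 := TT_le_wl y
  have h3 := TT_le_wl (x⁻¹ * y)
  have h4 := wl_le_TT x
  have h5 := wl_le_TT y
  have h6 := wl_le_TT (x⁻¹ * y)
  rw [TT_left] at h3 h6
  unfold TT at h1 h2 h4 h5
  have a1 : 2 * (mm x y - mm 1 x - mm 1 y) - 2 ≤
    (wl (XX S) x : ℤ) + wl (XX S) y - wl (XX S) (x⁻¹ * y) := by omega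
  have a2 : (wl (XX S) x : ℤ) + wl (XX S) y - wl (XX S) (x⁻¹ * y) ≤
    2 * (mm x y - mm 1 x - mm 1 y) + 2 := by omega
  have b1 : (((2 * (mm x y - mm 1 x - mm 1 y) - 2 : ℤ)) : ℝ) ≤
    (((wl (XX S) x : ℤ) + wl (XX S) y - wl (XX S) (x⁻¹ * y) : ℤ) : ℝ) := by exact_mod_cast a1
  have b2 : (((wl (XX S) x : ℤ) + wl (XX S) y - wl (XX S) (x⁻¹ * y) : ℤ) : ℝ) ≤
    ((2 * (mm x y - mm 1 x - mm 1 y) + 2 : ℤ) : ℝ) := by exact_mod_cast a2
  push_cast at b1 b2 ⊢
  unfold gp lX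
  constructor <;> linarith

lemma hyp_X : Hyp (lX S) 2 := by
  intro x y z
  have h1 := (gp_bounds x y).2
  have h2 := (gp_bounds y z).2
  have h3 := (gp_bounds x z).1
  have key : min (mm x y - mm 1 x - mm 1 y) (mm y z - mm 1 y - mm 1 z) ≤
      mm x z - mm 1 x - mm 1 z := by
    have u1 := mm_ultra x y z
    have u2 := mm_ultra 1 x y
    have u3 := mm_ultra 1 y x
    have u4 := mm_ultra x 1 y
    have u5 := mm_ultra 1 y z
    have u6 := mm_ultra 1 z y
    have u7 := mm_ultra y 1 z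
    have u8 := mm_ultra 1 x z
    have u9 := mm_ultra 1 z x
    have u10 := mm_ultra x 1 z
    have u11 := mm_ultra y x z
    have u12 := mm_ultra x z y
    rw [mm_comm y x] at u3 u11
    rw [mm_comm x 1] at u4 u10
    rw [mm_comm z y] at u6 u12
    rw [mm_comm y 1] at u7
    rw [mm_comm z x] at u9
    omega
  rcases min_cases (mm x y - mm 1 x - mm 1 y) (mm y z - mm 1 y - mm 1 z) with h | h
  · rw [h.1] at key
    have : ((mm x y - mm 1 x - mm 1 y : ℤ) : ℝ) ≤ ((mm x z - mm 1 x - mm 1 z : ℤ) : ℝ) := by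
      exact_mod_cast key
    have := min_le_left (gp (lX S) x y) (gp (lX S) y z)
    linarith
  · rw [h.1] at key
    have : ((mm y z - mm 1 y - mm 1 z : ℤ) : ℝ) ≤ ((mm x z - mm 1 x - mm 1 z : ℤ) : ℝ) := by
      exact_mod_cast key
    have := min_le_right (gp (lX S) x y) (gp (lX S) y z)
    linarith

end Pool.Agent.H180Z.QP
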