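import Mathlib

set_option autoImplicit false

namespace Pool.Agent.H180Z.QP

open Pointwise

variable {G : Type} [Group G]

noncomputable def wl (S : Set G) (g : G) : ℕ := sInf {n : ℕ | g ∈ (S ∪ S⁻¹) ^ n}

lemma exists_pow_mem {S : Set G} (hS : Subgroup.closure S = ⊤) (g : G) :
    ∃ n : ℕ, g ∈ (S ∪ S⁻¹) ^ n := by
  have hg : g ∈ Subgroup.closure S := hS ▸ Subgroup.mem_top g
  induction hg using Subgroup.closure_induction with
  | mem x hx => exact ⟨1, by rw [pow_one]; exact Or.inl hx⟩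
  | one => exact ⟨0, by simp⟩
  | mul x y _ _ hx hy =>
    obtain ⟨n, hn⟩ := hx
    obtain ⟨m, hm⟩ := hy
    exact ⟨n + m, by rw [pow_add]; exact Set.mul_mem_mul hn hm⟩
  | inv x _ hx =>
    obtain ⟨n, hn⟩ := hx
    refine ⟨n, ?_⟩
    have : (S ∪ S⁻¹) ^ n = ((S ∪ S⁻¹) ^ n)⁻¹ := by
      rw [← inv_pow, Set.union_inv, inv_inv, Set.union_comm]
    rw [this]; exact Set.inv_mem_inv.2 hn

lemma wl_spec {S : Set G} (hS : Subgroup.closure S = ⊤) (g : G) : g ∈ (S ∪ S⁻¹) ^ (wl S g) :=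
  Nat.sInf_mem (exists_pow_mem hS g)

lemma wl_le {S : Set G} {g : G} {n : ℕ} (h : g ∈ (S ∪ S⁻¹) ^ n) : wl S g ≤ n := Nat.sInf_le h

lemma wl_one (S : Set G) : wl S 1 = 0 := Nat.le_zero.1 (wl_le (by simp))

lemma wl_mul {S : Set G} (hS : Subgroup.closure S = ⊤) (g h : G) :
    wl S (g * h) ≤ wl S g + wl S h :=
  wl_le (by rw [pow_add]; exact Set.mul_mem_mul (wl_spec hS g) (wl_spec hS h))

lemma wl_inv (S : Set G) (g : G) : wl S g⁻¹ = wl S g := by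
  unfold wl
  congr 1
  ext n
  have : (S ∪ S⁻¹) ^ n = ((S ∪ S⁻¹) ^ n)⁻¹ := by
    rw [← inv_pow, Set.union_inv, inv_inv, Set.union_comm]
  simp only [Set.mem_ofPred_eq]
  conv_lhs => rw [this]
  exact Set.inv_mem_inv

lemma wl_mem {S : Set G} {g : G} (h : g ∈ S) : wl S g ≤ 1 :=
  wl_le (by rw [pow_one]; exact Or.inl h)

lemma wl_lower {S : Set G} (hS : Subgroup.closure S = ⊤) (φ : G → ℤ) (h1 : φ 1 ≤ 0)
    (hm : ∀ g h, φ (g * h) ≤ φ g + φ h) (hs : ∀ s ∈ S, φ s ≤ 1 ∧ φ s⁻¹ ≤ 1) (g : G) :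
    φ g ≤ wl S g := by
  have key : ∀ n : ℕ, ∀ g ∈ (S ∪ S⁻¹) ^ n, φ g ≤ n := by
    intro n
    induction n with
    | zero => intro g hg; rw [pow_zero, Set.mem_one] at hg; subst hg; simpa using h1
    | succ n ih =>
      intro g hg
      rw [pow_succ] at hg
      obtain ⟨a, ha, b, hb, rfl⟩ := hg
      have h2 := ih a ha
      have h3 : φ b ≤ 1 := by
        rcases hb with hb | hb
        · exact (hs b hb).1
        · have := (hs b⁻¹ hb).2
          rwa [inv_inv] at this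
      have h4 := hm a b
      push_cast
      linarith
  exact key _ g (wl_spec hS g)

structure IsLen (l : G → ℝ) : Prop where
  one : l 1 = 0
  mul : ∀ g h, l (g * h) ≤ l g + l h
  inv : ∀ g, l g⁻¹ = l g

lemma IsLen.nonneg {l : G → ℝ} (h : IsLen l) (g : G) : 0 ≤ l g := by
  have h1 := h.mul g g⁻¹
  rw [mul_inv_cancel, h.one, h.inv] at h1
  linarith

lemma IsLen.pow_le {l : G → ℝ} (h : IsLen l) (g : G) (n : ℕ) : l (g ^ n) ≤ n * l g := by
  induction n with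
  | zero => simp [h.one]
  | succ n ih => rw [pow_succ]; have := h.mul (g ^ n) g; push_cast; linarith

lemma IsLen.mul3 {l : G → ℝ} (h : IsLen l) (a b c : G) : l (a * b * c) ≤ l a + l b + l c := by
  have h1 := h.mul (a * b) c
  have h2 := h.mul a b
  linarith

lemma isLen_wl {S : Set G} (hS : Subgroup.closure S = ⊤) : IsLen (fun g => (wl S g : ℝ)) :=
  ⟨by simp [wl_one], fun g h => by exact_mod_cast wl_mul hS g h, fun g => by simp [wl_inv]⟩

noncomputable def gp (l : G → ℝ) (a b : G) : ℝ := (l a + l b - l (a⁻¹ * b)) / 2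

def Hyp (l : G → ℝ) (δ : ℝ) : Prop := ∀ x y z : G, min (gp l x y) (gp l y z) - δ ≤ gp l x z

def Lox (l : G → ℝ) (g : G) : Prop := ∃ c : ℝ, 0 < c ∧ ∀ n : ℕ, c * (n : ℝ) ≤ l (g ^ n)

def SameEnd (l : G → ℝ) (a b : G) : Prop :=
  ∀ K : ℝ, ∃ N : ℕ, ∀ n m : ℕ, N ≤ n → N ≤ m → K ≤ gp l (a ^ n) (b ^ m)

lemma Hyp.nonneg {l : G → ℝ} {δ : ℝ} (h : Hyp l δ) : 0 ≤ δ := by
  have := h 1 1 1
  rw [min_self] at this
  linarith

lemma exists_double (L : ℕ → ℝ) (c C A : ℝ) (hc : 0 < c) (hA : 0 < A)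
    (h : ∀ n : ℕ, c * n - C ≤ L n) : ∃ p : ℕ, 1 ≤ p ∧ L p + A < L (2 * p) := by
  by_contra hcon
  push Not at hcon
  have h1 : ∀ j : ℕ, L (2 ^ j) ≤ L 1 + j * A := by
    intro j
    induction j with
    | zero => simp
    | succ j ih =>
      have := hcon (2 ^ j) Nat.one_le_two_pow
      rw [pow_succ, mul_comm]
      push_cast
      linarith
  obtain ⟨j, hj⟩ := exists_nat_gt ((|L 1| + |C| + 2 * A) / c)
  have h2 := h1 (2 * j)
  have h3 := h (2 ^ (2 * j))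
  have h4 : j + 1 ≤ 2 ^ j := Nat.lt_two_pow_self
  have h5 : ((j : ℝ) + 1) ^ 2 ≤ (2 ^ (2 * j) : ℕ) := by
    have : (j + 1) ^ 2 ≤ 2 ^ (2 * j) := by
      rw [mul_comm, pow_mul]; exact Nat.pow_le_pow_left h4 2
    exact_mod_cast this
  rw [div_lt_iff₀ hc] at hj
  have h6 := le_abs_self (L 1)
  have h7 := le_abs_self C
  have h8 := abs_nonneg (L 1)
  have h9 := abs_nonneg C
  have h10 : (0 : ℝ) ≤ j := by positivity
  push_cast at h2
  have h11 : c * ((j : ℝ) + 1) ^ 2 ≤ L 1 + C + 2 * j * A := by nlinarith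
  have h12 : (|L 1| + |C| + 2 * A) * (j + 1) ≤ (j * c) * (j + 1) := by nlinarith
  nlinarith

lemma quasi_add {l : G → ℝ} (hl : IsLen l) {δ : ℝ} (hδ : Hyp l δ) (t : G) {c C : ℝ} (hc : 0 < c)
    (h : ∀ n : ℕ, c * n - C ≤ l (t ^ n)) :
    ∃ K : ℝ, ∀ i j : ℕ, l (t ^ i) + l (t ^ j) - K ≤ l (t ^ (i + j)) := by
  have hδ0 := hδ.nonneg
  obtain ⟨p, hp, hp2⟩ := exists_double (fun n => l (t ^ n)) c C (8 * δ + 1) hc (by linarith) h
  set u := t ^ p with hu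
  have e2 : t ^ (2 * p) = u ^ 2 := by rw [hu, ← pow_mul, mul_comm]
  rw [e2] at hp2
  have hk : l (u ^ 2) ≤ 2 * l u := by have := hl.pow_le u 2; push_cast at this; exact this
  have h1 : ∀ i : ℕ, l (u ^ i) + l u - l (u ^ (i + 1)) ≤ 2 * l u - l (u ^ 2) + 2 * δ := by
    intro i
    induction i with
    | zero => simp [hl.one]; linarith
    | succ i ih =>
      have h2 := hδ u⁻¹ (u ^ (i + 1))⁻¹ u
      unfold gp at h2
      have e3 : u⁻¹⁻¹ * (u ^ (i + 1))⁻¹ = (u ^ i)⁻¹ := by group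
      have e4 : (u ^ (i + 1))⁻¹⁻¹ * u = u ^ (i + 1 + 1) := by group
      have e5 : u⁻¹⁻¹ * u = u ^ 2 := by rw [inv_inv, sq]
      rw [e3, e4, e5] at h2
      simp only [hl.inv] at h2
      rcases min_cases ((l u + l (u ^ (i + 1)) - l (u ^ i)) / 2)
        ((l (u ^ (i + 1)) + l u - l (u ^ (i + 1 + 1))) / 2) with h3 | h3 <;>
        rw [h3.1] at h2 <;> linarith [h3.2]
  have h2 : ∀ i j : ℕ, l (u ^ i) + l (u ^ j) - l (u ^ (i + j)) ≤ 2 * l u - l (u ^ 2) + 4 * δ := by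
    intro i j
    rcases j with _ | j
    · simp [hl.one]; linarith
    have h3 := hδ (u ^ i)⁻¹ (u ^ (j + 1)) u
    unfold gp at h3
    have e3 : (u ^ i)⁻¹⁻¹ * u ^ (j + 1) = u ^ (i + (j + 1)) := by group
    have e4 : (u ^ (j + 1))⁻¹ * u = (u ^ j)⁻¹ := by group
    have e5 : (u ^ i)⁻¹⁻¹ * u = u ^ (i + 1) := by group
    rw [e3, e4, e5] at h3
    simp only [hl.inv] at h3
    have h4 := h1 i
    have h5 := h1 j
    rcases min_cases ((l (u ^ i) + l (u ^ (j + 1)) - l (u ^ (i + (j + 1)))) / 2)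
        ((l (u ^ (j + 1)) + l u - l (u ^ j)) / 2) with h6 | h6 <;>
        rw [h6.1] at h3 <;> linarith [h6.2]
  have ht0 := hl.nonneg t
  have h3 : ∀ r : ℕ, r ≤ p → l (t ^ r) ≤ p * l t := fun r hr =>
    (hl.pow_le t r).trans (mul_le_mul_of_nonneg_right (by exact_mod_cast hr) ht0)
  refine ⟨2 * l u - l (u ^ 2) + 4 * δ + 4 * (p * l t), fun i j => ?_⟩
  have e : ∀ i : ℕ, t ^ i = u ^ (i / p) * t ^ (i % p) := fun i => by
    rw [hu, ← pow_mul, ← pow_add, Nat.div_add_mod]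
  have h4 := h3 (i % p) (Nat.mod_lt _ hp).le
  have h5 := h3 (j % p) (Nat.mod_lt _ hp).le
  have h6 := hl.mul (u ^ (i / p)) (t ^ (i % p))
  have h7 := hl.mul (u ^ (j / p)) (t ^ (j % p))
  rw [← e] at h6 h7
  have e6 : u ^ (i / p + j / p) = t ^ (i + j) * (t ^ (i % p))⁻¹ * (t ^ (j % p))⁻¹ := by
    have : t ^ (i + j) = u ^ (i / p + j / p) * t ^ (j % p) * t ^ (i % p) := by
      rw [hu, ← pow_mul, ← pow_add, ← pow_add]
      congr 1
      have a1 := Nat.div_add_mod i p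
      have a2 := Nat.div_add_mod j p
      rw [mul_add]; omega
    rw [this]; group
  have h8 := hl.mul3 (t ^ (i + j)) (t ^ (i % p))⁻¹ (t ^ (j % p))⁻¹
  rw [← e6, hl.inv, hl.inv] at h8
  have h9 := h2 (i / p) (j / p)
  linarith

end Pool.Agent.H180Z.QP
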