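import Pool.Agent.H180Z.QP.Bdd

set_option autoImplicit false

namespace Pool.Agent.H180Z.QP

open Pointwise

variable {S : Type} [Group S]

lemma len_le_sh {l : GG S → ℝ} (hl : IsLen l) {c : ℝ} (hc : ∀ q ∈ QQ S, l q ≤ c) (x : GG S)
    (a : ℤ) (ha : Const x.f (-a)) : l x ≤ l (sh (-a)) + c + l (sh a) + l (sh x.n) := by
  obtain ⟨q, hq, e⟩ := decomp x a ha
  have h1 := hl.mul3 (sh (-a)) q (sh (a + x.n))
  rw [← e, sh_add] at h1
  have h2 := hl.mul (sh a) (sh x.n)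
  have h3 := hc q hq
  linarith

lemma growth {l : GG S → ℝ} (hl : IsLen l) {c : ℝ} (hc : ∀ q ∈ QQ S, l q ≤ c) {g : GG S}
    (hg : Lox l g) : ∃ c0 C : ℝ, 0 < c0 ∧ ∀ n : ℕ, c0 * n - C ≤ l (sh 1 ^ n) := by
  have key : ∀ g : GG S, Lox l g → 0 < g.n →
      ∃ c0 C : ℝ, 0 < c0 ∧ ∀ n : ℕ, c0 * n - C ≤ l (sh 1 ^ n) := by
    rintro g ⟨c1, hc1, h1⟩ hn
    obtain ⟨a, ha⟩ := exists_nat_const g
    obtain ⟨α, hα⟩ : ∃ α : ℕ, g.n = α := ⟨g.n.toNat, (Int.toNat_of_nonneg hn.le).symm⟩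
    have hα0 : (0 : ℝ) < α := by
      have : 0 < α := by omega
      exact_mod_cast this
    refine ⟨c1 / α, (l (sh (-(a : ℤ))) + c + l (sh a)) / α, by positivity, fun n => ?_⟩
    have h2 := len_le_sh hl hc (g ^ n) a (pow_const hn.le ha n)
    have h3 := hl.pow_le (sh 1 ^ n) α
    rw [← pow_mul, sh_pow] at h3
    rw [pow_n, hα] at h2
    push_cast at h3
    have h4 := h1 n
    rw [div_mul_eq_mul_div, ← sub_div, div_le_iff₀ hα0]
    linarith
  rcases lt_or_gt_of_ne (lox_ne hl hc hg) with h | h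
  · exact key g⁻¹ (hg.inv hl) (by simp; omega)
  · exact key g hg h

/-- the standing hypotheses on a hyperbolic length function with a loxodromic shift -/
structure Std (l : GG S → ℝ) (δ c c0 C K : ℝ) : Prop where
  len : IsLen l
  hyp : Hyp l δ
  bq : ∀ q ∈ QQ S, l q ≤ c
  c0pos : 0 < c0
  gr : ∀ n : ℕ, c0 * n - C ≤ l (sh n)
  qa : ∀ i j : ℕ, l (sh i) + l (sh j) - K ≤ l (sh (i + j))

variable {l : GG S → ℝ} {δ c c0 C K : ℝ}

lemma Std.c_nonneg (h : Std l δ c c0 C K) : 0 ≤ c :=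
  (h.len.nonneg _).trans (h.bq _ (DD_mem 1))

lemma Std.K_nonneg (h : Std l δ c c0 C K) : 0 ≤ K := by
  have := h.qa 0 0
  simp only [Nat.cast_zero, add_zero, sh_zero, h.len.one] at this
  linarith

lemma Std.shift_bd (h : Std l δ c c0 C K) (r : ℝ) : ∃ n0 : ℕ, ∀ y, l y ≤ r → y.n.natAbs ≤ n0 := by
  obtain ⟨n0, hn0⟩ := exists_nat_ge ((c + r + K + C) / c0)
  have key : ∀ y : GG S, l y ≤ r → 0 ≤ y.n → y.n ≤ n0 := by
    intro y hy hn
    obtain ⟨a, ha⟩ := exists_nat_const y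
    obtain ⟨n, hn'⟩ : ∃ n : ℕ, y.n = n := ⟨y.n.toNat, (Int.toNat_of_nonneg hn).symm⟩
    obtain ⟨q, hq, e⟩ := decomp y a ha
    have e2 : sh (a + y.n) = q⁻¹ * sh a * y := by
      conv_rhs => rw [e, sh_neg]
      group
    have h1 := h.len.mul3 q⁻¹ (sh a) y
    rw [← e2, h.len.inv, hn'] at h1
    have h2 := h.qa a n
    have h3 := h.gr n
    have h4 := h.bq q hq
    rw [div_le_iff₀ h.c0pos] at hn0
    have h5 : c0 * n ≤ n0 * c0 := by linarith
    have h6 : (n : ℝ) ≤ n0 := by nlinarith [h.c0pos]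
    rw [hn']
    exact_mod_cast h6
  refine ⟨n0, fun y hy => ?_⟩
  rcases le_total 0 y.n with h1 | h1
  · have := key y hy h1; omega
  · have := key y⁻¹ (by rwa [h.len.inv]) (by simp; omega)
    simp at this; omega

lemma Std.contract (h : Std l δ c c0 C K) (r : ℝ) : ∃ k : ℕ, ∀ x : GG S, x.n = 0 → l x ≤ r →
    ∀ i : ℤ, k ≤ i → l (cj i x) ≤ 3 * c + K + 4 * δ := by
  obtain ⟨k, hk⟩ := exists_nat_ge ((K + r + 2 * C) / (2 * c0))
  refine ⟨k, fun x hx hr i hi => ?_⟩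
  obtain ⟨i, rfl⟩ : ∃ i' : ℕ, i = i' := ⟨i.toNat, (Int.toNat_of_nonneg (by omega)).symm⟩
  obtain ⟨j, hj⟩ := exists_nat_const x
  have hc0 := h.c0pos
  have hL : K + r ≤ 2 * l (sh i) := by
    have h1 := h.gr i
    have h2 : (k : ℝ) ≤ i := by exact_mod_cast hi
    rw [div_le_iff₀ (by positivity)] at hk
    nlinarith
  set q := cj (j + i) x with hq
  have hqQ : q ∈ QQ S := ⟨by simpa [hq] using hx, fun a b ha hb => by
    simp only [hq, cj_f]
    exact hj _ _ (by omega) (by omega)⟩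
  have hqc := h.bq q hqQ
  have h1 := h.hyp (sh j) (sh (j + i)) (q * sh (j + i))
  have h2 := h.hyp (sh j) (q * sh (j + i)) (q * sh j)
  unfold gp at h1 h2
  have e1 : (sh (j : ℤ) : GG S)⁻¹ * sh (j + i) = sh i := by rw [sh_add]; group
  have e2 : (sh ((j : ℤ) + i) : GG S)⁻¹ * (q * sh (j + i)) = x := by rw [hq]; unfold cj; group
  have e3 : (q * sh ((j : ℤ) + i))⁻¹ * (q * sh j) = (sh i)⁻¹ := by rw [sh_add]; group
  have e4 : (sh (j : ℤ) : GG S)⁻¹ * (q * sh j) = cj i x := by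
    ext m
    · simp only [hq, mul_f, inv_f, sh_f, cj_f, inv_n, sh_n, inv_one, one_mul, mul_one]
      congr 1; ring
    · simp [hq, hx]
  rw [e1, e2] at h1
  rw [e3, e4, h.len.inv] at h2
  have a1 := h.qa j i
  have a2 : l (sh (j + i)) ≤ c + l (q * sh (j + i)) := by
    have := h.len.mul q⁻¹ (q * sh (j + i))
    rw [inv_mul_cancel_left, h.len.inv] at this
    linarith
  have a3 : l (sh j) ≤ c + l (q * sh j) := by
    have := h.len.mul q⁻¹ (q * sh j)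
    rw [inv_mul_cancel_left, h.len.inv] at this
    linarith
  have a4 := h.len.mul q (sh j)
  have a5 := h.c_nonneg
  have a6 := h.hyp.nonneg
  have b1 : l (sh j) - K / 2 - c - δ ≤
      (l (sh j) + l (q * sh (j + i)) - l ((sh j)⁻¹ * (q * sh (j + i)))) / 2 := by
    refine le_trans ?_ h1
    rw [sub_le_sub_iff_right, le_min_iff]
    constructor <;> linarith
  have b2 : l (sh j) - K / 2 - c - δ - δ ≤ (l (sh j) + l (q * sh j) - l (cj i x)) / 2 := by
    refine le_trans ?_ h2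
    rw [sub_le_sub_iff_right, le_min_iff]
    constructor <;> linarith
  linarith

def PP (l : GG S → ℝ) (ρ : ℝ) (a : ℤ) (x : GG S) : Prop :=
  x.n = 0 ∧ ∀ i : ℤ, -a ≤ i → l (cj i x) ≤ ρ

lemma PP.mono {ρ : ℝ} {a b : ℤ} {x : GG S} (h : PP l ρ a x) (hab : b ≤ a) : PP l ρ b x :=
  ⟨h.1, fun i hi => h.2 i (by omega)⟩

lemma PP.cj {ρ : ℝ} {a : ℤ} {x : GG S} (h : PP l ρ a x) {j : ℤ} (hj : 0 ≤ j) :
    PP l ρ a (cj j x) :=
  ⟨by simpa using h.1, fun i hi => by rw [cj_cj]; exact h.2 _ (by omega)⟩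

lemma PP.inv (hl : IsLen l) {ρ : ℝ} {a : ℤ} {x : GG S} (h : PP l ρ a x) : PP l ρ a x⁻¹ :=
  ⟨by simpa using h.1, fun i hi => by rw [cj_inv, hl.inv]; exact h.2 i hi⟩

lemma Std.PP_mul (h : Std l δ c c0 C K) : ∃ k : ℕ, ∀ (a : ℤ) (x y : GG S),
    PP l (3 * c + K + 4 * δ) (a + k) x → PP l (3 * c + K + 4 * δ) (a + k) y →
      PP l (3 * c + K + 4 * δ) a (x * y) := by
  obtain ⟨k, hk⟩ := h.contract (2 * (3 * c + K + 4 * δ))
  refine ⟨k, fun a x y hx hy => ⟨by simp [hx.1, hy.1], fun i hi => ?_⟩⟩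
  have h1 := hk (cj (i - k) (x * y)) (by simp [hx.1, hy.1]) (by
    rw [cj_mul]
    have h2 := hx.2 (i - k) (by omega)
    have h3 := hy.2 (i - k) (by omega)
    have h4 := h.len.mul (cj (i - k) x) (cj (i - k) y)
    linarith) k le_rfl
  rwa [cj_cj, add_sub_cancel] at h1

lemma Std.PP_DD (h : Std l δ c c0 C K) (a : ℤ) (d : S) : PP l (3 * c + K + 4 * δ) a (DD d) := by
  refine ⟨rfl, fun i _ => ?_⟩
  rw [cj_DD]
  have := h.bq _ (DD_mem d)
  linarith [h.c_nonneg, h.K_nonneg, h.hyp.nonneg]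

lemma Std.bounded [Finite S] [IsSimpleGroup S] (h : Std l δ c c0 C K) (r : ℝ)
    (hr : ∀ a : ℕ, ∃ x : GG S, x.n = 0 ∧ l x ≤ r ∧ ¬ Const x.f (-a)) :
    ∃ B : ℝ, ∀ x : GG S, x.n = 0 → l x ≤ B := by
  set ρ := 3 * c + K + 4 * δ with hρ
  obtain ⟨k, hk⟩ := h.PP_mul
  let W : ℤ → S → Prop := fun a s => ∃ g, PP l ρ a g ∧ (∀ i < 0, g.f i = 1) ∧ g.f 0 = s
  let Z : Subgroup S :=
    { carrier := {s | ∀ a, W a s}
      one_mem' := fun a => ⟨DD 1, h.PP_DD a 1, fun _ _ => rfl, rfl⟩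
      mul_mem' := by
        intro s s' hs hs' a
        obtain ⟨g, h1, h2, h3⟩ := hs (a + k)
        obtain ⟨g', h1', h2', h3'⟩ := hs' (a + k)
        refine ⟨g * g', hk a g g' h1 h1', fun i hi => ?_, ?_⟩
        · simp [h1.1, h2 i hi, h2' i hi]
        · simp [h1.1, h3, h3']
      inv_mem' := by
        intro s hs a
        obtain ⟨g, h1, h2, h3⟩ := hs a
        refine ⟨g⁻¹, h1.inv h.len, fun i hi => ?_, ?_⟩
        · simp [h1.1, h2 i hi]
        · simp [h1.1, h3] }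
  have hZn : Z.Normal := ⟨fun s hs d a => by
    obtain ⟨g, h1, h2, h3⟩ := hs (a + k + k)
    refine ⟨DD d * g * (DD d)⁻¹, hk a _ _ (hk _ _ _ (h.PP_DD _ d) h1) ((h.PP_DD _ d).inv h.len),
      fun i hi => ?_, ?_⟩
    · simp [h2 i hi]
    · simp [h3]⟩
  have hW : ∀ a : ℕ, ∃ s, s ≠ 1 ∧ W a s := by
    intro a
    obtain ⟨k', hk'⟩ := h.contract (c + r)
    obtain ⟨x, hx0, hxr, hxc⟩ := hr (a + k')
    obtain ⟨b, hb1, hb2⟩ := Int.exists_greatest_of_bdd (P := fun m => Const x.f m)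
      ⟨-((a + k' : ℕ) : ℤ), fun z hz => by
        by_contra hcon
        exact hxc (hz.mono (by omega))⟩ x.h
    have hb3 : b < -((a + k' : ℕ) : ℤ) := by
      by_contra hcon
      exact hxc (hb1.mono (by omega))
    set x' := (DD (x.f (b - 1)))⁻¹ * x with hx'
    have hx'f : ∀ i, x'.f i = (x.f (b - 1))⁻¹ * x.f i := fun i => by simp [hx']
    have hx'l : l x' ≤ c + r := by
      have h1 := h.len.mul (DD (x.f (b - 1)))⁻¹ x
      rw [h.len.inv] at h1
      have h2 := h.bq _ (DD_mem (x.f (b - 1)))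
      linarith
    refine ⟨(x.f (b - 1))⁻¹ * x.f b, fun h1 => ?_, cj (-b) x', ⟨by simp [hx', hx0], fun i hi => ?_⟩,
      fun i hi => ?_, ?_⟩
    · have h2 : x.f b = x.f (b - 1) := by
        have := congrArg (x.f (b - 1) * ·) h1
        simpa using this
      have h3 : ∀ i, i < b + 1 → x.f i = x.f (b - 1) := fun i hi => by
        rcases eq_or_lt_of_le (show i ≤ b by omega) with h4 | h4
        · rw [h4, h2]
        · exact hb1 _ _ h4 (by omega)
      have := hb2 (b + 1) (fun i j hi hj => by rw [h3 i hi, h3 j hj])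
      omega
    · rw [cj_cj]
      exact hk' x' (by simp [hx', hx0]) hx'l _ (by push_cast at hb3; omega)
    · rw [cj_f, hx'f, hb1 (i - -b) (b - 1) (by omega) (by omega), inv_mul_cancel]
    · rw [cj_f, hx'f]; simp
  have hZ : ∀ s, s ∈ Z := by
    rcases hZn.eq_bot_or_eq_top with h1 | h1
    · exfalso
      have h2 : ∀ s : S, ∃ a : ℕ, s ≠ 1 → ¬ W a s := by
        intro s
        by_contra hcon
        push Not at hcon
        have h3 : s ∈ Z := fun a => by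
          obtain ⟨g, h4, h5⟩ := (hcon a.natAbs).2
          exact ⟨g, h4.mono (by omega), h5⟩
        rw [h1, Subgroup.mem_bot] at h3
        exact (hcon 0).1 h3
      choose A hA using h2
      obtain ⟨M, hM⟩ := Finite.bddAbove_range A
      obtain ⟨s, hs1, g, h4, h5⟩ := hW M
      have h6 : A s ≤ M := hM ⟨s, rfl⟩
      exact hA s hs1 ⟨g, h4.mono (by omega), h5⟩
    · intro s; rw [h1]; trivial
  have happ : ∀ (L : ℕ) (a : ℤ) (g : ℤ → S), ∃ z, PP l ρ a z ∧ (∀ i < 0, z.f i = 1) ∧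
      ∀ i : ℤ, 0 ≤ i → i < L → z.f i = g i := by
    intro L
    induction L with
    | zero => intro a g; exact ⟨DD 1, h.PP_DD a 1, fun _ _ => rfl, fun i h1 h2 => by omega⟩
    | succ L ih =>
      intro a g
      obtain ⟨z, h1, h2, h3⟩ := ih (a + k) g
      obtain ⟨w, h4, h5, h6⟩ := hZ ((z.f L)⁻¹ * g L) (a + k)
      refine ⟨z * cj L w, hk a _ _ h1 (h4.cj (by omega)), fun i hi => ?_, fun i hi hi' => ?_⟩
      · simp [h1.1, h2 i hi, h5 (i - L) (by omega)]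
      · rcases eq_or_lt_of_le (show i ≤ L by omega) with h7 | h7
        · subst h7
          simp [h1.1, h6]
        · simp [h1.1, h3 i hi h7, h5 (i - L) (by omega)]
  refine ⟨c + ρ + c, fun x hx => ?_⟩
  obtain ⟨a, ha⟩ := exists_nat_const x
  set d := x.f (-a - 1) with hd
  obtain ⟨z, h1, h2, h3⟩ := happ a a (fun i => d⁻¹ * x.f (i - a))
  have hq : (cj (-a) z)⁻¹ * (DD d)⁻¹ * x ∈ QQ S := by
    have h4 : ∀ i < 0, ((cj (-a) z)⁻¹ * (DD d)⁻¹ * x).f i = 1 := by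
      intro i hi
      simp only [mul_f, inv_f, cj_f, cj_n, h1.1, DD_f, inv_n, mul_n, DD_n]
      rcases lt_or_ge i (-a) with h5 | h5
      · rw [h2 _ (by omega), ha _ (-a - 1) (by omega) (by omega)]; simp [hd]
      · rw [h3 _ (by omega) (by omega)]; simp
    exact ⟨by simp [h1.1, hx], fun i j hi hj => by rw [h4 i hi, h4 j hj]⟩
  have e : x = DD d * cj (-a) z * ((cj (-a) z)⁻¹ * (DD d)⁻¹ * x) := by group
  have h5 := h.len.mul3 (DD d) (cj (-a) z) ((cj (-a) z)⁻¹ * (DD d)⁻¹ * x)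
  rw [← e] at h5
  have h6 := h.bq _ hq
  have h7 := h.bq _ (DD_mem d)
  have h8 := h1.2 (-a) le_rfl
  linarith

lemma Std.sameEnd (h : Std l δ c c0 C K) {B : ℝ} (hB : ∀ x : GG S, x.n = 0 → l x ≤ B)
    {g g' : GG S} (hs : (0 < g.n ∧ 0 < g'.n) ∨ (g.n < 0 ∧ g'.n < 0)) : SameEnd l g g' := by
  have h1 : ∀ x : GG S, l x ≤ l (sh (x.n.natAbs : ℤ)) + B ∧ l (sh (x.n.natAbs : ℤ)) ≤ l x + B := by
    intro x
    have e0 : l (sh (x.n.natAbs : ℤ)) = l (sh x.n) := by rw [len_sh h.len x.n, sh_pow]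
    rw [e0]
    have h2 := hB (x * (sh x.n)⁻¹) (by simp)
    have h3 := h.len.mul (x * (sh x.n)⁻¹) (sh x.n)
    have h4 := h.len.mul (x * (sh x.n)⁻¹)⁻¹ x
    rw [inv_mul_cancel_right] at h3
    rw [h.len.inv, show (x * (sh x.n)⁻¹)⁻¹ * x = sh x.n by group] at h4
    constructor <;> linarith
  intro M
  obtain ⟨N, hN⟩ := exists_nat_ge ((2 * M + 3 * B + K + 2 * C) / (2 * c0))
  have hc0 := h.c0pos
  rw [div_le_iff₀ (by positivity)] at hN
  refine ⟨N, fun n m hn hm => ?_⟩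
  have a1 := (h1 (g ^ n)).2
  have a2 := (h1 (g' ^ m)).2
  have a3 := (h1 ((g ^ n)⁻¹ * g' ^ m)).1
  simp only [mul_n, inv_n] at a3
  have b1 : N ≤ (g ^ n).n.natAbs := by
    rw [pow_n, Int.natAbs_mul, Int.natAbs_natCast]
    have : 1 ≤ g.n.natAbs := by omega
    nlinarith
  have b2 : N ≤ (g' ^ m).n.natAbs := by
    rw [pow_n, Int.natAbs_mul, Int.natAbs_natCast]
    have : 1 ≤ g'.n.natAbs := by omega
    nlinarith
  have b3 : (0 ≤ (g ^ n).n ∧ 0 ≤ (g' ^ m).n) ∨ ((g ^ n).n ≤ 0 ∧ (g' ^ m).n ≤ 0) := by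
    rw [pow_n, pow_n]
    rcases hs with hs | hs
    · left; constructor <;> apply mul_nonneg (by positivity) <;> omega
    · right; constructor <;> apply mul_nonpos_of_nonneg_of_nonpos (by positivity) <;> omega
  unfold gp
  generalize (g ^ n).n = u at *
  generalize (g' ^ m).n = v at *
  rcases le_total u.natAbs v.natAbs with h2 | h2
  · have e : (v.natAbs : ℤ) = u.natAbs + (-u + v).natAbs := by omega
    have c1 := h.qa u.natAbs (-u + v).natAbs
    rw [← e] at c1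
    have c2 := h.gr u.natAbs
    have c3 : (N : ℝ) ≤ u.natAbs := by exact_mod_cast b1
    nlinarith
  · have e : (u.natAbs : ℤ) = v.natAbs + (-u + v).natAbs := by omega
    have c1 := h.qa v.natAbs (-u + v).natAbs
    rw [← e] at c1
    have c2 := h.gr v.natAbs
    have c3 : (N : ℝ) ≤ v.natAbs := by exact_mod_cast b2
    nlinarith

theorem unique [Finite S] [IsSimpleGroup S] (hperf : commutator S = ⊤) (hl : IsLen l)
    (hδ : Hyp l δ) {g g' : GG S} (hg : Lox l g) (hg' : Lox l g')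
    (hne : ¬ ((SameEnd l g g' ∧ SameEnd l g⁻¹ g'⁻¹) ∨ (SameEnd l g g'⁻¹ ∧ SameEnd l g⁻¹ g'))) :
    ∃ M : ℕ, ∀ y, l y ≤ 1 → wl (XX S) y ≤ M := by
  obtain ⟨c, hc⟩ := bdd_QQ hperf hl
  obtain ⟨c0, C, hc0, hgr⟩ := growth hl hc hg
  obtain ⟨K, hK⟩ := quasi_add hl hδ (sh 1) hc0 hgr
  have h : Std l δ c c0 C K := ⟨hl, hδ, hc, hc0, fun n => by simpa [sh_pow] using hgr n,
    fun i j => by simpa [sh_pow] using hK i j⟩
  obtain ⟨n0, hn0⟩ := h.shift_bd 1
  have h1 : ∃ a : ℕ, ∀ x : GG S, x.n = 0 → l x ≤ 1 + n0 * l (sh 1) → Const x.f (-a) := by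
    by_contra hcon
    push Not at hcon
    obtain ⟨B, hB⟩ := h.bounded _ hcon
    apply hne
    have h2 := lox_ne hl hc hg
    have h3 := lox_ne hl hc hg'
    rcases lt_or_gt_of_ne h2 with h2 | h2 <;> rcases lt_or_gt_of_ne h3 with h3 | h3
    · exact Or.inl ⟨h.sameEnd hB (by omega), h.sameEnd hB (by simp; omega)⟩
    · exact Or.inr ⟨h.sameEnd hB (by simp; omega), h.sameEnd hB (by simp; omega)⟩
    · exact Or.inr ⟨h.sameEnd hB (by simp; omega), h.sameEnd hB (by simp; omega)⟩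
    · exact Or.inl ⟨h.sameEnd hB (by omega), h.sameEnd hB (by simp; omega)⟩
  obtain ⟨a, ha⟩ := h1
  refine ⟨2 * a + 3 * n0 + 1, fun y hy => ?_⟩
  have h2 := hn0 y hy
  have h3 := ha (y * (sh y.n)⁻¹) (by simp) (by
    have h4 := hl.mul y (sh y.n)⁻¹
    rw [hl.inv] at h4
    have h5 := len_sh_le hl y.n
    have h6 : (y.n.natAbs : ℝ) ≤ n0 := by exact_mod_cast h2
    have h7 := hl.nonneg (sh 1)
    nlinarith)
  have h4 : Const y.f (-a) := fun i j hi hj => by simpa using h3 i j hi hj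
  have h5 : -(a : ℤ) - n0 ≤ mm 1 y := le_mm (MP_one.2 ⟨by omega, by omega, h4.mono (by omega)⟩)
  have h6 := wl_le_TT y
  unfold TT at h6
  omega

end Pool.Agent.H180Z.QP
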