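import Pool.Agent.H180Z.QP.Grp

set_option autoImplicit false

namespace Pool.Agent.H180Z.QP

open Pointwise

variable {S : Type} [Group S]

lemma isLen_lX : IsLen (lX S) := isLen_wl closure_XX

lemma lox_X {g : GG S} (h : 0 < g.n) : Lox (lX S) g := by
  refine ⟨1, one_pos, fun n => ?_⟩
  have h1 := TT_le_wl (g ^ n)
  have h2 := (abs_le_TT (g ^ n)).1
  rw [pow_n] at h2
  have h3 : (n : ℤ) ≤ wl (XX S) (g ^ n) := by nlinarith
  unfold lX
  rw [one_mul]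
  exact_mod_cast h3

/-- an element with trivial shift is not loxodromic when the subgroup `QQ` is bounded -/
lemma lox_ne {l : GG S → ℝ} (hl : IsLen l) {c : ℝ} (hc : ∀ q ∈ QQ S, l q ≤ c) {g : GG S}
    (h : Lox l g) : g.n ≠ 0 := by
  intro h0
  obtain ⟨c0, hc0, h1⟩ := h
  obtain ⟨a, ha⟩ := exists_nat_const g
  obtain ⟨k, hk⟩ := exists_nat_gt ((l (sh (-(a : ℤ))) + c + l (sh a)) / c0)
  obtain ⟨q, hq, e⟩ := decomp (g ^ k) a (pow_const h0.ge ha k)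
  have h2 := hl.mul3 (sh (-(a : ℤ))) q (sh (a + (g ^ k).n))
  rw [← e, pow_n, h0, mul_zero, add_zero] at h2
  have h3 := h1 k
  have h4 := hc q hq
  rw [div_lt_iff₀ hc0] at hk
  linarith

lemma lX_QQ : ∀ q ∈ QQ S, lX S q ≤ 1 := fun q hq => by
  have : wl (XX S) q ≤ 1 := wl_mem (Or.inl hq)
  unfold lX
  exact_mod_cast this

lemma Lox.inv {G : Type} [Group G] {l : G → ℝ} (hl : IsLen l) {g : G} (h : Lox l g) :
    Lox l g⁻¹ := by
  obtain ⟨c, hc, h1⟩ := h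
  exact ⟨c, hc, fun n => by rw [inv_pow, hl.inv]; exact h1 n⟩

lemma mm_neg_pow {g : GG S} (h : g.n < 0) : ∃ a : ℕ, ∀ k : ℕ,
    k * g.n - a ≤ mm 1 (g ^ k) ∧ mm 1 (g ^ k) ≤ k * g.n := by
  obtain ⟨a, ha⟩ := exists_nat_const g⁻¹
  refine ⟨a, fun k => ⟨?_, ?_⟩⟩
  · apply le_mm
    have h0 : (k : ℤ) * g.n ≤ 0 := by nlinarith [Int.natCast_nonneg k]
    refine MP_one.2 ⟨by omega, by rw [pow_n]; omega, fun i j hi hj => ?_⟩
    have h1 := pow_const (x := g⁻¹) (by simp; omega) ha k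
    have e : g ^ k = (g⁻¹ ^ k)⁻¹ := by group
    rw [e, inv_f, inv_f, h1 (i + (g⁻¹ ^ k).n) (j + (g⁻¹ ^ k).n)]
    · rw [pow_n, inv_n]; linarith
    · rw [pow_n, inv_n]; linarith
  · have := (mm_spec 1 (g ^ k)).2.1
    rwa [pow_n] at this

lemma sameEnd_X {g h : GG S} (hg : g.n < 0) (hh : h.n < 0) : SameEnd (lX S) g h := by
  obtain ⟨a, ha⟩ := mm_neg_pow hg
  obtain ⟨b, hb⟩ := mm_neg_pow hh
  intro K
  obtain ⟨N, hN⟩ := exists_nat_ge (K + a + b + 1)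
  refine ⟨N, fun n m hn hm => ?_⟩
  have h1 := (gp_bounds (g ^ n) (h ^ m)).1
  have h2 := mm_ultra (g ^ n) 1 (h ^ m)
  rw [mm_comm (g ^ n) 1] at h2
  have h3 := ha n
  have h4 := hb m
  have h5 : (n : ℤ) * g.n ≤ -N := by nlinarith [Int.natCast_nonneg n]
  have h6 : (m : ℤ) * h.n ≤ -N := by nlinarith [Int.natCast_nonneg m]
  have h7 : (N : ℤ) - a - b ≤ mm (g ^ n) (h ^ m) - mm 1 (g ^ n) - mm 1 (h ^ m) := by omega
  have h8 : (((N : ℤ) - a - b : ℤ) : ℝ) ≤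
      ((mm (g ^ n) (h ^ m) - mm 1 (g ^ n) - mm 1 (h ^ m) : ℤ) : ℝ) := by exact_mod_cast h7
  push_cast at h8 h1
  linarith

lemma share_X (g h : GG S) (hg : Lox (lX S) g) (hh : Lox (lX S) h) :
    SameEnd (lX S) g h ∨ SameEnd (lX S) g h⁻¹ ∨ SameEnd (lX S) g⁻¹ h ∨ SameEnd (lX S) g⁻¹ h⁻¹ := by
  have h1 := lox_ne isLen_lX lX_QQ hg
  have h2 := lox_ne isLen_lX lX_QQ hh
  rcases lt_or_gt_of_ne h1 with h1 | h1 <;> rcases lt_or_gt_of_ne h2 with h2 | h2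
  · exact Or.inl (sameEnd_X h1 h2)
  · exact Or.inr (Or.inl (sameEnd_X h1 (by simp; omega)))
  · exact Or.inr (Or.inr (Or.inl (sameEnd_X (by simp; omega) h2)))
  · exact Or.inr (Or.inr (Or.inr (sameEnd_X (by simp; omega) (by simp; omega))))

/-- the lamp `s` at position `0` -/
def lamp (s : S) : GG S := ⟨fun i => if i = 0 then s else 1, 0, ⟨0, fun i j hi hj => by
  simp only [if_neg hi.ne, if_neg hj.ne]⟩⟩

lemma indep_X {s : S} (hs : s ≠ 1) : ∃ g h : GG S, Lox (lX S) g ∧ Lox (lX S) h ∧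
    ¬ ((SameEnd (lX S) g h ∧ SameEnd (lX S) g⁻¹ h⁻¹) ∨
      (SameEnd (lX S) g h⁻¹ ∧ SameEnd (lX S) g⁻¹ h)) := by
  have hn : (lamp s).n = 0 := rfl
  have hf : ∀ i, (lamp s).f i = if i = 0 then s else 1 := fun i => rfl
  refine ⟨sh 1, lamp s * sh 1 * (lamp s)⁻¹, lox_X (by simp), lox_X (by simp [hn]), ?_⟩
  have e0 : (0 : ℤ) ≤ mm (1 : GG S) (sh 1 ^ 1) :=
    le_mm (MP_one.2 ⟨le_rfl, by simp, fun _ _ _ _ => by simp⟩)
  rintro (⟨h, -⟩ | ⟨h, -⟩)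
  · obtain ⟨N, hN⟩ := h 2
    have h1 := hN (N + 1) (N + 1) (by omega) (by omega)
    have h2 := (gp_bounds (sh 1 ^ (N + 1)) ((lamp s * sh 1 * (lamp s)⁻¹) ^ (N + 1))).2
    rw [conj_pow, sh_pow] at h1 h2
    set x : GG S := sh ((N + 1 : ℕ) : ℤ) with hx
    set y := lamp s * x * (lamp s)⁻¹ with hy
    have hyf : ∀ i, i ≤ 0 → y.f i = if i = 0 then s else 1 := by
      intro i hi
      simp only [hy, hx, mul_f, inv_f, sh_f, mul_one, mul_n, sh_n, hn, hf]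
      rw [if_neg (show ¬ (i - (0 + ((N + 1 : ℕ) : ℤ)) + 0 = 0) by omega)]
      simp
    have a1 : (0 : ℤ) ≤ mm 1 x := le_mm (MP_one.2 ⟨le_rfl, by simp [hx]; omega,
      fun _ _ _ _ => by simp [hx]⟩)
    have a2 : (0 : ℤ) ≤ mm 1 y := le_mm (MP_one.2 ⟨le_rfl, by simp [hy, hx, hn]; omega,
      fun i j hi hj => by rw [hyf i hi.le, hyf j hj.le, if_neg hi.ne, if_neg hj.ne]⟩)
    have a3 : mm x y ≤ 0 := by
      by_contra hcon
      have := (mm_spec x y).2.2 0 (-1) (by omega) (by omega)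
      simp only [hyf 0 le_rfl, hyf (-1) (by omega), hx, sh_f] at this
      simp at this
      exact hs this
    have a4 : mm x y - mm 1 x - mm 1 y ≤ 0 := by omega
    have a5 : ((mm x y - mm 1 x - mm 1 y : ℤ) : ℝ) ≤ 0 := by exact_mod_cast a4
    linarith
  · obtain ⟨N, hN⟩ := h 2
    have h1 := hN N N le_rfl le_rfl
    have h2 := (gp_bounds (sh 1 ^ N) ((lamp s * sh 1 * (lamp s)⁻¹)⁻¹ ^ N)).2
    rw [inv_pow, conj_pow, sh_pow] at h1 h2
    set x : GG S := sh (N : ℤ) with hx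
    set y := (lamp s * x * (lamp s)⁻¹)⁻¹ with hy
    have ey : y = lamp s * sh (-(N : ℤ)) * (lamp s)⁻¹ := by rw [hy, hx, sh_neg]; group
    have a1 : (0 : ℤ) ≤ mm 1 x := le_mm (MP_one.2 ⟨le_rfl, by simp [hx],
      fun _ _ _ _ => by simp [hx]⟩)
    have hyn : y.n = -N := by rw [ey]; simp [hn]
    have hyf : ∀ i, i < -(N : ℤ) → y.f i = 1 := by
      intro i hi
      simp only [ey, mul_f, inv_f, sh_f, mul_one, mul_n, sh_n, hn, hf]
      rw [if_neg (show ¬ (i = 0) by omega), if_neg (show ¬ (i - (0 + -(N : ℤ)) + 0 = 0) by omega)]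
      simp
    have a2 : -(N : ℤ) ≤ mm 1 y := le_mm (MP_one.2 ⟨by omega, by omega,
      fun i j hi hj => by rw [hyf i hi, hyf j hj]⟩)
    have a3 : mm x y ≤ -N := by have := (mm_spec x y).2.1; omega
    have a4 : mm x y - mm 1 x - mm 1 y ≤ 0 := by omega
    have a5 : ((mm x y - mm 1 x - mm 1 y : ℤ) : ℝ) ≤ 0 := by exact_mod_cast a4
    linarith

end Pool.Agent.H180Z.QP
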